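import Pool.Agent.Lib.MP_798203_nt.AB.Main

/-!
# Normality of countably many linear forms to countably many bases

Let `A` and `B` be countable sets of pairs (nonzero vector of `ℝ^n`, base `≥ 2`). There is a point `x`
of `ℝ^n` such that `⟨b, x⟩` is normal to base `s` for all `(b, s) ∈ B` and `⟨a, x⟩` is not normal to
base `r` for all `(a, r) ∈ A` if and only if there are no `(a, r) ∈ A`, `(b, s) ∈ B` such that `b` is a
rational multiple of `a` and `r`, `s` have a common power. Then the base `r` digits of `⟨a, x⟩`,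
`(a, r) ∈ A`, can be prescribed on sets of upper density one.
With `n = 1`, `A = {(a, r) : r ≥ 2}`, `B = {(1, s) : s ≥ 2}`: for every irrational `a` there is a number
`x` which is normal to every base such that `a x` is normal to no base.
-/

namespace MP798203.Variants.LinearForms

open Filter

/-- the digit number `j` (`j = 0, 1, 2, …`) after the point of the real number `y` in base `r` -/
noncomputable def digit (r : ℕ) (y : ℝ) (j : ℕ) : ℤ := ⌊y * (r : ℝ) ^ (j + 1)⌋ % r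

/-- `y` is normal to base `r`: every block `w` of `k` digits occurs in the base `r` expansion of the
fractional part of `y` with asymptotic frequency `r^(-k)` -/
def NormalTo (r : ℕ) (y : ℝ) : Prop :=
  ∀ (k : ℕ) (w : Fin k → ℕ), (∀ i, w i < r) →
    Tendsto (fun N : ℕ => (((Finset.range N).filter
      (fun n => ∀ i : Fin k, digit r y (n + i) = w i)).card : ℝ) / N)
      atTop (nhds ((1 / (r : ℝ)) ^ k))

theorem result (n : ℕ) (hn : 0 < n) (A B : Set ((Fin n → ℝ) × ℕ)) (hA : A.Countable)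
    (hB : B.Countable) (hA0 : ∀ p ∈ A, p.1 ≠ 0 ∧ 2 ≤ p.2) (hB0 : ∀ t ∈ B, t.1 ≠ 0 ∧ 2 ≤ t.2) :
    List.TFAE [
      ∀ p ∈ A, ∀ t ∈ B, (∃ c : ℚ, t.1 = (c : ℝ) • p.1) →
        ∀ i j : ℕ, 0 < i → 0 < j → p.2 ^ i ≠ t.2 ^ j,
      ∃ x : Fin n → ℝ, (∀ t ∈ B, NormalTo t.2 (t.1 ⬝ᵥ x)) ∧
        ∀ p ∈ A, ¬ NormalTo p.2 (p.1 ⬝ᵥ x),
      ∀ d : (Fin n → ℝ) × ℕ → ℕ → ℕ, (∀ p j, 2 ≤ p.2 → d p j < p.2) →
        ∃ x : Fin n → ℝ, (∀ t ∈ B, NormalTo t.2 (t.1 ⬝ᵥ x)) ∧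
          ∀ p ∈ A, ∀ ε : ℝ, 0 < ε → ∃ᶠ N : ℕ in atTop, (1 - ε) * N ≤
            (((Finset.range N).filter
              (fun j => digit p.2 (p.1 ⬝ᵥ x) j = (d p j : ℤ))).card : ℝ)] := by
  have h := MP798203.AB.tfaeP hn A B hA hB hA0 hB0
  have e : (∀ p ∈ A, ∀ t ∈ B, (∃ c : ℚ, t.1 = (c : ℝ) • p.1) →
        ∀ i j : ℕ, 0 < i → 0 < j → p.2 ^ i ≠ t.2 ^ j) ↔
      ∀ p ∈ A, ∀ t ∈ B, ∀ c : ℚ, t.1 = (c : ℝ) • p.1 → ¬ MP798203.AB.MulDep p.2 t.2 := by
    constructor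
    · rintro h p hp t ht c hc ⟨i, j, hi, hj, hij⟩
      exact h p hp t ht ⟨c, hc⟩ i j hi hj hij
    · rintro h p hp t ht ⟨c, hc⟩ i j hi hj hij
      exact h p hp t ht c hc ⟨i, j, hi, hj, hij⟩
  rw [e]
  exact h

end MP798203.Variants.LinearForms
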